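import Pool.Agent.H85.SpgTop

/-!
# Adequate diagrams of even-valent spatial graphs have minimal crossing number

`Spg.Diagram` is the type of combinatorial codes of diagrams of even-valent spatial graphs (file
`Pool/Agent/H85/SpgDiag.lean`). Two of them are `Isotopic` if they are related by a finite sequence
of isomorphisms, Reidemeister moves of spatial graphs (R1 - R5) and their inverses. Planarity is not
required, so the theorem holds for virtual diagrams and in particular for the diagrams on the
sphere.
-/

namespace Pool.Agent.Results.MP_5e61f3_gt.AdequateMinimal

/-- Every adequate diagram of an even-valent spatial graph has minimal crossing number. -/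
theorem result (G H : Spg.Diagram) (h : Spg.Diagram.Isotopic G H) (hG : G.Adequate) :
    G.crossings ≤ H.crossings :=
  Spg.main G H h hG

end Pool.Agent.Results.MP_5e61f3_gt.AdequateMinimal
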